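import Mathlib

set_option autoImplicit false

namespace Pool.Agent.Lib.TT3

/-- The grid `{1, …, n}^d` in `ℤ^d`. -/
noncomputable def grid (d n : ℕ) : Finset (Fin d → ℤ) :=
  Fintype.piFinset fun _ => Finset.Icc (1 : ℤ) n

/-- `A` contains three translated triangles. -/
def ContainsThree {d : ℕ} (A : Finset (Fin d → ℤ)) : Prop :=
  ∃ X : Finset (Fin d → ℤ), X.card = 3 ∧ ∃ k₁ k₂ k₃ : Fin d → ℤ, k₁ ≠ k₂ ∧ k₁ ≠ k₃ ∧ k₂ ≠ k₃ ∧
    ∀ x ∈ X, x + k₁ ∈ A ∧ x + k₂ ∈ A ∧ x + k₃ ∈ A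

/-- The largest size of a subset of the grid avoiding three translated triangles. -/
noncomputable def F (d n : ℕ) : ℕ :=
  sSup {m : ℕ | ∃ A : Finset (Fin d → ℤ), A ⊆ grid d n ∧ ¬ ContainsThree A ∧ A.card = m}

end Pool.Agent.Lib.TT3
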