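import Pool.Agent.Lib.TT3.Defs
import Pool.Agent.Lib.MP_98d116_co.Lower

set_option autoImplicit false

namespace Pool.Agent.Lib.TT3

open MP_98d116_co (Ov no_K33 exists_good)

theorem lower (d p n : ℕ) (hp : p.Prime) (hn : p ^ 3 ≤ n ^ d) :
    ∃ A : Finset (Fin d → ℤ), A ⊆ grid d n ∧ ¬ ContainsThree A ∧ p ^ 2 ≤ A.card + p := by
  classical
  have := Fact.mk hp
  obtain ⟨g, l, hord, hOv, hcard⟩ := exists_good p
  set M := (p ^ 2 + 1) * (p - 1) with hM
  set S := (Finset.range M).filter (fun i => l (g ^ i) = 1) with hS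
  have hp1 := hp.one_lt
  have hMn : M ≤ n ^ d := by
    refine le_trans ?_ hn
    obtain ⟨r, rfl⟩ : ∃ r, p = r + 1 := ⟨p - 1, by omega⟩
    rw [hM, Nat.add_sub_cancel]
    nlinarith [Nat.zero_le (r ^ 2)]
  let w : (Fin d → Fin n) → ℕ := fun f => (finFunctionFinEquiv f : ℕ)
  have hw : Function.Injective w := fun f f' h => finFunctionFinEquiv.injective (Fin.ext h)
  let e : (Fin d → Fin n) → (Fin d → ℤ) := fun f i => ((f i : ℕ) : ℤ) + 1
  let ψ : (Fin d → ℤ) → ℤ := fun x => ∑ i : Fin d, x i * (n : ℤ) ^ (i : ℕ)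
  let c : ℤ := ∑ i : Fin d, (n : ℤ) ^ (i : ℕ)
  have hadd : ∀ x k, ψ (x + k) = ψ x + ψ k := by
    intro x k
    simp only [ψ, Pi.add_apply, add_mul, Finset.sum_add_distrib]
  have hψ : ∀ f, ψ (e f) = w f + c := by
    intro f
    simp only [ψ, e, w, c, finFunctionFinEquiv_apply, add_mul, one_mul, Finset.sum_add_distrib]
    push_cast
    rfl
  have he : Function.Injective e := by
    intro f f' h
    apply hw
    have := congrArg ψ h
    rw [hψ, hψ] at this
    omega
  set T := (Finset.univ : Finset (Fin d → Fin n)).filter (fun f => w f ∈ S) with hT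
  have hTS : T.card = S.card := by
    rw [← Finset.card_image_of_injective T hw]
    congr 1
    ext i
    simp only [Finset.mem_image, hT, Finset.mem_filter, Finset.mem_univ, true_and]
    constructor
    · rintro ⟨f, hf, rfl⟩
      exact hf
    · intro hi
      have h1 : i < n ^ d := lt_of_lt_of_le (Finset.mem_range.1 (Finset.mem_filter.1 hi).1) hMn
      have h2 : w (finFunctionFinEquiv.symm ⟨i, h1⟩) = i := by
        simp only [w, Equiv.apply_symm_apply]
      exact ⟨_, by rw [h2]; exact hi, h2⟩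
  refine ⟨T.image e, ?_, ?_, ?_⟩
  · intro x hx
    obtain ⟨f, -, rfl⟩ := Finset.mem_image.1 hx
    refine Fintype.mem_piFinset.2 (fun i => ?_)
    have := (f i).2
    simp only [e, Finset.mem_Icc]
    omega
  · rintro ⟨X, hX, k₁, k₂, k₃, h12, h13, h23, hA⟩
    obtain ⟨a, b, c', hab, hac, hbc, rfl⟩ := Finset.card_eq_three.1 hX
    have hg0 := hOv.1
    have key : ∀ x k : Fin d → ℤ, x + k ∈ T.image e → ∃ f, w f < M ∧ x + k = e f ∧
        l (g ^ w f) = 1 ∧ g ^ (ψ x) * g ^ (ψ k - c) = g ^ w f := by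
      intro x k h
      obtain ⟨f, hf, hie⟩ := Finset.mem_image.1 h
      have hi := (Finset.mem_filter.1 hf).2
      rw [hS, Finset.mem_filter, Finset.mem_range] at hi
      refine ⟨f, hi.1, hie.symm, hi.2, ?_⟩
      rw [← zpow_add₀ hg0, ← zpow_natCast]
      congr 1
      have := hψ f
      rw [hie, hadd] at this
      linear_combination this
    have inj : ∀ x k x' k' : Fin d → ℤ, x + k ∈ T.image e → x' + k' ∈ T.image e →
        g ^ (ψ x) * g ^ (ψ k - c) = g ^ (ψ x') * g ^ (ψ k' - c) → x + k = x' + k' := by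
      intro x k x' k' h h' heq
      obtain ⟨i, hi, e1, -, e2⟩ := key x k h
      obtain ⟨j, hj, e3, -, e4⟩ := key x' k' h'
      rw [e2, e4] at heq
      have := pow_injOn_Iio_orderOf (x := g) (by rwa [Set.mem_Iio, hord])
        (by rwa [Set.mem_Iio, hord]) heq
      rw [e1, e3, hw this]
    have val : ∀ x k : Fin d → ℤ, x + k ∈ T.image e → l (g ^ (ψ x) * g ^ (ψ k - c)) = 1 := by
      intro x k h
      obtain ⟨i, -, -, e1, e2⟩ := key x k h
      rw [e2, e1]
    have ha := hA a (by simp)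
    have hb := hA b (by simp)
    have hc := hA c' (by simp)
    refine no_K33 (GaloisField.finrank p (by norm_num)) l (hOv.zpow (ψ a)) (hOv.zpow (ψ b))
      (hOv.zpow (ψ c')) (hOv.zpow (ψ k₁ - c)) (hOv.zpow (ψ k₂ - c))
      (hOv.zpow (ψ k₃ - c)) ?_ ?_ ?_ ?_ ?_ ?_ ?_
    · exact fun h => hab (add_right_cancel (inj a k₁ b k₁ ha.1 hb.1 (by rw [h])))
    · exact fun h => hac (add_right_cancel (inj a k₁ c' k₁ ha.1 hc.1 (by rw [h])))
    · exact fun h => hbc (add_right_cancel (inj b k₁ c' k₁ hb.1 hc.1 (by rw [h])))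
    · exact fun h => h12 (add_left_cancel (inj a k₁ a k₂ ha.1 ha.2.1 (by rw [h])))
    · exact fun h => h13 (add_left_cancel (inj a k₁ a k₃ ha.1 ha.2.2 (by rw [h])))
    · exact fun h => h23 (add_left_cancel (inj a k₂ a k₃ ha.2.1 ha.2.2 (by rw [h])))
    · simp only [List.mem_cons, List.not_mem_nil, or_false, forall_eq_or_imp, forall_eq]
      exact ⟨⟨val _ _ ha.1, val _ _ ha.2.1, val _ _ ha.2.2⟩,
        ⟨val _ _ hb.1, val _ _ hb.2.1, val _ _ hb.2.2⟩,
        ⟨val _ _ hc.1, val _ _ hc.2.1, val _ _ hc.2.2⟩⟩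
  · rw [Finset.card_image_of_injective _ he, hTS]
    obtain ⟨r, rfl⟩ : ∃ r, p = r + 1 := ⟨p - 1, by omega⟩
    rw [hM, Nat.add_sub_cancel] at hcard
    by_contra hcon
    have h1 : S.card + 1 ≤ (r + 1) * r := by nlinarith
    nlinarith

end Pool.Agent.Lib.TT3
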