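import Pool.Agent.Lib.TT3.Defs
import Pool.Agent.Lib.MP_98d116_co.Upper

set_option autoImplicit false

namespace Pool.Agent.Lib.TT3

open Finset

theorem window_ineq {d : ℕ} (A B E : Finset (Fin d → ℤ)) (hA : ¬ ContainsThree A) (hB : B ⊆ A)
    (hE : ∀ a ∈ A, ∀ b ∈ B, a - b ∈ E) :
    (B.card * (A.card - 1) - 2 * E.card) ^ 3 ≤ E.card ^ 2 * B.card ^ 3 := by
  classical
  let Bd : (Fin d → ℤ) → Finset (Fin d → ℤ) := fun v => B.filter (fun b => b + v ∈ A)
  have h1 : B.card * (A.card - 1) ≤ ∑ v ∈ E.erase 0, (Bd v).card := by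
    simp only [Bd, Finset.card_filter]
    rw [Finset.sum_comm, ← smul_eq_mul, ← Finset.sum_const]
    refine Finset.sum_le_sum (fun b hb => ?_)
    rw [← Finset.card_filter, ← Finset.card_erase_of_mem (hB hb)]
    refine Finset.card_le_card_of_injOn (fun a => a - b) (fun a ha => ?_)
      (fun a _ a' _ h => sub_left_injective h)
    simp only [Finset.coe_erase, Set.mem_sdiff, Finset.mem_coe, Set.mem_singleton_iff] at ha
    simp only [Finset.coe_filter, Finset.mem_erase, Set.mem_ofPred_eq]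
    exact ⟨⟨sub_ne_zero.2 ha.2, hE a ha.1 b hb⟩, by simpa using ha.1⟩
  have h2 : ∑ v ∈ E.erase 0, (Bd v).card.choose 3 ≤ B.card.choose 3 := by
    simp_rw [← Finset.card_powersetCard]
    rw [← Finset.card_biUnion]
    · refine Finset.card_le_card (Finset.biUnion_subset.2 (fun v _ => ?_))
      exact Finset.powersetCard_mono (Finset.filter_subset _ _)
    · intro v hv v' hv' hne
      rw [Function.onFun, Finset.disjoint_left]
      intro X hX hX'
      rw [Finset.mem_powersetCard] at hX hX'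
      apply hA
      refine ⟨X, hX.2, 0, v, v', (Finset.ne_of_mem_erase hv).symm,
        (Finset.ne_of_mem_erase hv').symm, hne, fun x hx => ?_⟩
      have e1 := Finset.mem_filter.1 (hX.1 hx)
      have e2 := Finset.mem_filter.1 (hX'.1 hx)
      exact ⟨by simpa using hB e1.1, e1.2, e2.2⟩
  have h3 : B.card * (A.card - 1) - 2 * E.card ≤ ∑ v ∈ E.erase 0, ((Bd v).card - 2) := by
    have : ∑ v ∈ E.erase 0, (Bd v).card ≤ ∑ v ∈ E.erase 0, (((Bd v).card - 2) + 2) :=
      Finset.sum_le_sum (fun v _ => by omega)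
    rw [Finset.sum_add_distrib, Finset.sum_const, smul_eq_mul] at this
    have h4 : (E.erase 0).card ≤ E.card := Finset.card_erase_le
    omega
  have h4 := pow_sum_le_card_mul_sum_pow (s := E.erase 0) (f := fun v => (Bd v).card - 2)
    (fun _ _ => Nat.zero_le _) 2
  have h5 : ∑ v ∈ E.erase 0, ((Bd v).card - 2) ^ (2 + 1) ≤ B.card ^ 3 := by
    calc ∑ v ∈ E.erase 0, ((Bd v).card - 2) ^ (2 + 1)
        ≤ ∑ v ∈ E.erase 0, 6 * (Bd v).card.choose 3 :=
          Finset.sum_le_sum (fun v _ => MP_98d116_co.cube_le_choose _)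
      _ = 6 * ∑ v ∈ E.erase 0, (Bd v).card.choose 3 := by rw [Finset.mul_sum]
      _ ≤ 6 * B.card.choose 3 := by gcongr
      _ ≤ _ := MP_98d116_co.choose_le_cube _
  have h6 : (E.erase 0).card ≤ E.card := Finset.card_erase_le
  calc _ ≤ (∑ v ∈ E.erase 0, ((Bd v).card - 2)) ^ (2 + 1) := by gcongr
    _ ≤ _ := h4
    _ ≤ E.card ^ 2 * B.card ^ 3 := by
      simp only [Nat.cast_id]
      gcongr

theorem exists_window (d n m u : ℕ) (hm : 0 < m) (hu : 0 < u) (hn : n ≤ m * u)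
    (A : Finset (Fin d → ℤ)) (hA : A ⊆ grid d n) :
    ∃ B E : Finset (Fin d → ℤ), B ⊆ A ∧ (∀ a ∈ A, ∀ b ∈ B, a - b ∈ E) ∧
      A.card ≤ m ^ d * B.card ∧ E.card = (n + u) ^ d := by
  classical
  let f : (Fin d → ℤ) → (Fin d → ℤ) := fun x i => (x i - 1) / u
  let t : Finset (Fin d → ℤ) := Fintype.piFinset fun _ => Finset.Ico (0 : ℤ) m
  have hu' : (0 : ℤ) < u := by exact_mod_cast hu
  have hn' : (n : ℤ) ≤ m * u := by exact_mod_cast hn
  have hmem : ∀ x ∈ A, ∀ i, 1 ≤ x i ∧ x i ≤ n := by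
    intro x hx i
    have := Fintype.mem_piFinset.1 (hA hx) i
    simpa using this
  have hf : ∀ x ∈ A, f x ∈ t := by
    intro x hx
    refine Fintype.mem_piFinset.2 (fun i => ?_)
    obtain ⟨h1, h2⟩ := hmem x hx i
    simp only [f, Finset.mem_Ico]
    exact ⟨Int.ediv_nonneg (by omega) hu'.le, Int.ediv_lt_of_lt_mul hu' (by omega)⟩
  have htc : t.card = m ^ d := by simp [t, Fintype.card_piFinset]
  have htne : t.Nonempty := Finset.card_pos.1 (by rw [htc]; positivity)
  obtain ⟨y, -, hy⟩ := Finset.exists_le_of_sum_le htne (f := fun _ => A.card)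
    (g := fun y => m ^ d * (A.filter (fun x => f x = y)).card) (by
      rw [Finset.sum_const, ← Finset.mul_sum, ← Finset.card_eq_sum_card_fiberwise hf, htc,
        smul_eq_mul])
  refine ⟨A.filter (fun x => f x = y),
    Fintype.piFinset fun i => Finset.Ico (-(y i * u) - u) (n - y i * u),
    Finset.filter_subset _ _, ?_, hy, ?_⟩
  · intro a ha b hb
    obtain ⟨hb, rfl⟩ := Finset.mem_filter.1 hb
    refine Fintype.mem_piFinset.2 (fun i => ?_)
    obtain ⟨h1, h2⟩ := hmem a ha i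
    have e1 := Int.ediv_mul_le (b i - 1) hu'.ne'
    have e2 := Int.lt_ediv_add_one_mul_self (b i - 1) hu'
    simp only [f, Finset.mem_Ico, Pi.sub_apply]
    rw [add_mul, one_mul] at e2
    exact ⟨by linarith, by linarith⟩
  · rw [Fintype.card_piFinset]
    have : ∀ i : Fin d, (Finset.Ico (-(y i * u) - u) (n - y i * u)).card = n + u := by
      intro i
      have : (n : ℤ) - y i * u - (-(y i * u) - u) = ((n + u : ℕ) : ℤ) := by push_cast; ring
      rw [Int.card_Ico, this, Int.toNat_natCast]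
    simp [this]

theorem upper (d n m u : ℕ) (hm : 0 < m) (hu : 0 < u) (hn : n ≤ m * u)
    (A : Finset (Fin d → ℤ)) (hA : A ⊆ grid d n) (hA' : ¬ ContainsThree A) (hne : 0 < A.card) :
    (A.card : ℝ) ≤ 1 + (((n : ℝ) + u) ^ d) ^ (2 / 3 : ℝ)
      + 2 * (n + u) ^ d * m ^ d / A.card := by
  obtain ⟨B, E, h1, h2, h3, h4⟩ := exists_window d n m u hm hu hn A hA
  have h5 := window_ineq A B E hA' h1 h2
  rw [h4] at h5
  have hB : 0 < B.card := by
    rcases Nat.eq_zero_or_pos B.card with h | h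
    · rw [h] at h3; omega
    · exact h
  set a := A.card
  set D := B.card
  have hD : (0 : ℝ) < D := by exact_mod_cast hB
  have ha : (0 : ℝ) < a := by exact_mod_cast hne
  have hV : (((n + u) ^ d : ℕ) : ℝ) = ((n : ℝ) + u) ^ d := by push_cast; ring
  rw [← hV]
  generalize (n + u) ^ d = V at *
  set x := D * (a - 1) - 2 * V with hx
  have h6 : (x : ℝ) ^ 3 ≤ ((V : ℝ) ^ (2 / 3 : ℝ) * D) ^ 3 := by
    rw [mul_pow, ← Real.rpow_natCast ((V : ℝ) ^ (2 / 3 : ℝ)),
      ← Real.rpow_mul (by positivity)]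
    have : (2 / 3 : ℝ) * ((3 : ℕ) : ℝ) = ((2 : ℕ) : ℝ) := by norm_num
    rw [this, Real.rpow_natCast]
    exact_mod_cast h5
  have h7 : (x : ℝ) ≤ (V : ℝ) ^ (2 / 3 : ℝ) * D :=
    le_of_pow_le_pow_left₀ (by norm_num) (by positivity) h6
  have h8 : (D : ℝ) * (a - 1) ≤ x + 2 * V := by
    have e1 : D * (a - 1) ≤ x + 2 * V := by omega
    have e2 : ((D * (a - 1) : ℕ) : ℝ) ≤ ((x + 2 * V : ℕ) : ℝ) := by exact_mod_cast e1
    rw [Nat.cast_mul, Nat.cast_sub hne] at e2
    push_cast at e2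
    exact e2
  have h9 : (a : ℝ) ≤ m ^ d * D := by exact_mod_cast h3
  have h10 : 2 * (V : ℝ) ≤ 2 * V * m ^ d / a * D := by
    rw [div_mul_eq_mul_div, le_div_iff₀ ha, mul_assoc _ _ (D : ℝ)]
    gcongr
  have h11 : (D : ℝ) * (a - 1) ≤ D * ((V : ℝ) ^ (2 / 3 : ℝ) + 2 * V * m ^ d / a) := by
    linarith
  have := le_of_mul_le_mul_left h11 hD
  linarith

end Pool.Agent.Lib.TT3
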